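import Pool.Agent.L5helper98.CQ.Stmts

/-!
Task CN: union bound for common neighbourhoods.
-/

set_option autoImplicit false

namespace Pool.Agent.L5helper34.CQ

open Finset Pool.Agent.L5helper98.CQ
open scoped Classical

lemma card_prs {n : ℕ} (R W : Finset (Fin n)) (h : Disjoint R W) :
    (prs R W).card = R.card * W.card := by
  unfold prs
  rw [Finset.card_image_of_injOn, Finset.card_product]
  rintro ⟨a, b⟩ hab ⟨c, d⟩ hcd he
  simp only [coe_product, Set.mem_prod, mem_coe] at hab hcd
  rcases Sym2.eq_iff.1 he with ⟨h1, h2⟩ | ⟨h1, h2⟩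
  · simp only at h1 h2
    rw [h1, h2]
  · simp only at h1 h2
    exact absurd hcd.2 (Finset.disjoint_left.1 h (h1 ▸ hab.1))

lemma Pb_cn {n : ℕ} (p : ℝ) (h0 : 0 ≤ p) (h1 : p ≤ 1) (R W : Finset (Fin n)) :
    Pb p (fun ω : Om n => W ⊆ cn ω R) ≤ p ^ (R.card * W.card) := by
  by_cases h : Disjoint R W
  · rw [← card_prs R W h, ← Pb_subset]
    apply Pb_mono h0 h1
    intro ω hω e he
    induction e using Sym2.inductionOn with
    | hf u v =>
      have key : ∀ a ∈ R, ∀ b ∈ W, s(a, b) ∈ ω := by
        intro a ha b hb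
        have := hω hb
        unfold cn at this
        rw [mem_filter] at this
        exact (this.2 a ha).2
      rcases (mem_prs R W u v).1 he with ⟨h1, h2⟩ | ⟨h1, h2⟩
      · exact key u h1 v h2
      · rw [Sym2.eq_swap]
        exact key v h1 u h2
  · obtain ⟨v, hv, hv'⟩ := Finset.not_disjoint_iff.1 h
    have : Pb p (fun ω : Om n => W ⊆ cn ω R) = 0 := by
      unfold Pb
      refine Eq.trans (congrArg (Ex p) (funext fun ω => ?_)) (Ex_const p 0)
      rw [if_neg]
      intro hω
      have := hω hv'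
      unfold cn at this
      rw [mem_filter] at this
      exact (this.2 v hv).1 rfl
    rw [this]
    positivity

theorem taskCN : TaskCN := by
  intro n r k p h0 h1
  have step : Pb p (fun ω : Om n => ∃ R : Finset (Fin n), R.card = r ∧ k ≤ (cn ω R).card) ≤
      Pb p (fun ω : Om n => ∃ x ∈ (powersetCard r (univ : Finset (Fin n))) ×ˢ
        (powersetCard k (univ : Finset (Fin n))), x.2 ⊆ cn ω x.1) := by
    apply Pb_mono h0 h1
    rintro ω ⟨R, hR, hk⟩
    obtain ⟨W, hW, hWk⟩ := Finset.exists_subset_card_eq hk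
    exact ⟨(R, W), by simp [mem_powersetCard, hR, hWk], hW⟩
  refine step.trans ((Pb_exists_mem h0 h1 _ _).trans ?_)
  calc ∑ x ∈ (powersetCard r (univ : Finset (Fin n))) ×ˢ
        (powersetCard k (univ : Finset (Fin n))), Pb p (fun ω : Om n => x.2 ⊆ cn ω x.1)
      ≤ ∑ x ∈ (powersetCard r (univ : Finset (Fin n))) ×ˢ
        (powersetCard k (univ : Finset (Fin n))), p ^ (r * k) := by
        refine Finset.sum_le_sum fun x hx => ?_
        simp only [mem_product, mem_powersetCard] at hx
        have := Pb_cn p h0 h1 x.1 x.2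
        rwa [hx.1.2, hx.2.2] at this
    _ = (n.choose r : ℝ) * (n.choose k : ℝ) * p ^ (r * k) := by
        rw [Finset.sum_const, Finset.card_product, Finset.card_powersetCard,
          Finset.card_powersetCard, Finset.card_univ, Fintype.card_fin, nsmul_eq_mul]
        push_cast
        ring
    _ ≤ (n : ℝ) ^ r * ((n : ℝ) ^ k / (k.factorial : ℝ)) * p ^ (r * k) := by
        gcongr
        · exact_mod_cast Nat.choose_le_pow n r
        · exact Nat.choose_le_pow_div k n
    _ = (n : ℝ) ^ r * (((n : ℝ) * p ^ r) ^ k / (k.factorial : ℝ)) := by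
        rw [mul_pow, ← pow_mul]
        ring

end Pool.Agent.L5helper34.CQ
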